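import Mathlib

/-!
# The residual-type step for unequal-data-demand PIR codes fails: definitions of the statement
-/

namespace Pool.H26.MV.ResidualStepFails

open Matrix

set_option linter.unusedSectionVars false

/-- `I` is a recovery set for the `j`-th data symbol of the encoder `a ↦ aᵀ G`: the restriction to
the positions in `I` of a codeword determines the `j`-th data symbol. -/
def IsRecoverySet {F κ ι : Type*} [Field F] [Fintype κ] (G : Matrix κ ι F) (j : κ)
    (I : Set ι) : Prop :=
  ∀ a b : κ → F, (∀ i ∈ I, (a ᵥ* G) i = (b ᵥ* G) i) → a j = b j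

/-- `G` is a linear `t`-PIR code (unequal data demand): the encoder `a ↦ aᵀ G` is one-to-one and
every data symbol `j` has `t j` pairwise disjoint recovery sets. -/
def IsPIRCode {F κ ι : Type*} [Field F] [Fintype κ] (t : κ → ℕ) (G : Matrix κ ι F) : Prop :=
  Function.Injective (fun a : κ → F => a ᵥ* G) ∧
    ∀ j : κ, ∃ R : Fin (t j) → Set ι,
      (∀ x y, x ≠ y → Disjoint (R x) (R y)) ∧ ∀ x, IsRecoverySet G j (R x)

end Pool.H26.MV.ResidualStepFails
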