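import Mathlib
import Pool.Agent.H26.MV.ResidualStepFailsDefs

/-!
# The residual-type step for unequal-data-demand PIR codes fails: the proof
-/

namespace Pool.H26.MV.ResidualStepFails

open Matrix

set_option linter.unusedSectionVars false

lemma exists_vec {F : Type*} [Field F] {k n : ℕ} (G : Matrix (Fin k) (Fin n) F) (j : Fin k)
    (I : Set (Fin n)) (h : IsRecoverySet G j I) :
    ∃ x : Fin n → F, (∀ i, i ∉ I → x i = 0) ∧ G *ᵥ x = Pi.single j 1 := by
  classical
  have hmem : (Pi.single j 1 : Fin k → F) ∈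
      Submodule.span F ((fun i : Fin n => (fun l => G l i : Fin k → F)) '' I) := by
    rw [← Subspace.forall_mem_dualAnnihilator_apply_eq_zero_iff]
    intro φ hφ
    rw [Submodule.mem_dualAnnihilator] at hφ
    set a : Fin k → F := fun l => φ (Pi.single l 1) with ha
    have hφa : ∀ v : Fin k → F, φ v = ∑ l, a l * v l := by
      intro v
      have : v = ∑ l, v l • (Pi.single l 1 : Fin k → F) := by
        ext m
        simp [Finset.sum_apply, Pi.single_apply]
      conv_lhs => rw [this]
      rw [map_sum]
      refine Finset.sum_congr rfl fun l _ => ?_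
      rw [map_smul, smul_eq_mul, mul_comm]
    have h0 := h a 0 (by
      intro i hi
      have := hφ (fun l => G l i) (Submodule.subset_span ⟨i, hi, rfl⟩)
      rw [hφa] at this
      simpa [Matrix.vecMul, dotProduct] using this)
    rw [hφa]
    simpa [Pi.single_apply] using h0
  let S : Submodule F (Fin n → F) :=
    { carrier := {x | ∀ i, i ∉ I → x i = 0}
      add_mem' := by
        intro x y hx hy i hi
        simp [hx i hi, hy i hi]
      zero_mem' := by
        intro i _
        rfl
      smul_mem' := by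
        intro c x hx i hi
        simp [hx i hi] }
  have hle : Submodule.span F ((fun i : Fin n => (fun l => G l i : Fin k → F)) '' I) ≤
      S.map G.mulVecLin := by
    rw [Submodule.span_le]
    rintro _ ⟨i, hi, rfl⟩
    refine ⟨Pi.single i 1, ?_, ?_⟩
    · intro m hm
      have : m ≠ i := fun h => hm (h ▸ hi)
      simp [this]
    · ext l
      simp
  obtain ⟨x, hx, hGx⟩ := hle hmem
  exact ⟨x, hx, by simpa using hGx⟩

/-- A linear code over a field of characteristic two with three disjoint recovery sets for each of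
its `k` data symbols has redundancy at least `√k`. -/
lemma le_sq_of_three {F : Type*} [Field F] [CharP F 2] {k n : ℕ} (G : Matrix (Fin k) (Fin n) F)
    (h : ∀ j, ∃ R : Fin 3 → Set (Fin n),
      (∀ x y, x ≠ y → Disjoint (R x) (R y)) ∧ ∀ x, IsRecoverySet G j (R x)) :
    k ≤ (n - k) ^ 2 := by
  classical
  choose R hR hrec using h
  choose x hx hGx using fun j a => exists_vec G j (R j a) (hrec j a)
  -- the kernel of `G` has dimension `n - k`
  have hsurj : Function.Surjective G.mulVecLin := by
    intro v
    refine ⟨∑ j, v j • x j 0, ?_⟩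
    rw [map_sum]
    simp only [map_smul, Matrix.mulVecLin_apply, hGx]
    ext m
    simp [Finset.sum_apply, Pi.single_apply]
  have hker : Module.finrank F (LinearMap.ker G.mulVecLin) = n - k := by
    have h1 := LinearMap.finrank_range_add_finrank_ker G.mulVecLin
    rw [LinearMap.range_eq_top.mpr hsurj, finrank_top] at h1
    simp at h1
    omega
  let b := Module.finBasisOfFinrankEq F (LinearMap.ker G.mulVecLin) hker
  let S : Submodule F (Fin n → F) := Submodule.span F
    (Set.range fun p : Fin (n - k) × Fin (n - k) =>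
      ((b p.1 : Fin n → F) * (b p.2 : Fin n → F)))
  have hS : Module.finrank F S ≤ (n - k) ^ 2 := by
    refine (finrank_range_le_card (R := F) _).trans ?_
    simp [sq]
  have hmul : ∀ y z : LinearMap.ker G.mulVecLin, (y : Fin n → F) * (z : Fin n → F) ∈ S := by
    intro y z
    rw [← b.sum_repr y, ← b.sum_repr z]
    simp only [Submodule.coe_sum, Submodule.coe_smul, Finset.sum_mul_sum]
    refine Submodule.sum_mem _ fun i _ => Submodule.sum_mem _ fun l _ => ?_
    rw [smul_mul_smul_comm]
    exact Submodule.smul_mem _ _ (Submodule.subset_span ⟨(i, l), rfl⟩)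
  have hsub : ∀ j a c, x j a - x j c ∈ LinearMap.ker G.mulVecLin := by
    intro j a c
    rw [LinearMap.mem_ker, map_sub, Matrix.mulVecLin_apply, Matrix.mulVecLin_apply, hGx, hGx,
      sub_self]
  have hzero : ∀ j a c, a ≠ c → ∀ i, x j a i * x j c i = 0 := by
    intro j a c hac i
    by_cases hi : i ∈ R j a
    · have : i ∉ R j c := fun h => (Set.disjoint_left.mp (hR j a c hac)) hi h
      rw [hx j c i this, mul_zero]
    · rw [hx j a i hi, zero_mul]
  have hu : ∀ j, x j 0 * x j 0 ∈ S := by
    intro j
    have := hmul ⟨_, hsub j 0 1⟩ ⟨_, hsub j 0 2⟩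
    convert this using 1
    ext i
    have h1 := hzero j 0 1 (by decide) i
    have h2 := hzero j 0 2 (by decide) i
    have h3 := hzero j 1 2 (by decide) i
    simp only [Pi.mul_apply, Pi.sub_apply]
    have e : (x j 0 i - x j 1 i) * (x j 0 i - x j 2 i) =
        x j 0 i * x j 0 i - x j 0 i * x j 2 i - x j 0 i * x j 1 i + x j 1 i * x j 2 i := by ring
    rw [e, h1, h2, h3]
    ring
  have hli : LinearIndependent F (fun j : Fin k => (⟨_, hu j⟩ : S)) := by
    let Φ : (Fin n → F) →ₗ[F] (Fin k → F) := (G.map (fun c => c ^ 2)).mulVecLin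
    have hΦ : ∀ j, Φ (x j 0 * x j 0) = Pi.single j 1 := by
      intro j
      ext l
      have h1 : Φ (x j 0 * x j 0) l = ∑ i, (G l i * x j 0 i) ^ 2 := by
        simp only [Φ, Matrix.mulVecLin_apply, Matrix.mulVec, dotProduct, Matrix.map_apply,
          Pi.mul_apply]
        refine Finset.sum_congr rfl fun i _ => by ring
      rw [h1, ← CharTwo.sum_sq]
      have h2 : ∑ i, G l i * x j 0 i = (G *ᵥ x j 0) l := rfl
      rw [h2, hGx]
      by_cases hl : l = j
      · subst hl; simp
      · simp [hl]
    have hcomp : LinearIndependent F (fun j : Fin k => (Φ ∘ₗ S.subtype) (⟨_, hu j⟩ : S)) := by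
      have : (fun j : Fin k => (Φ ∘ₗ S.subtype) (⟨_, hu j⟩ : S)) =
          fun j => (Pi.single j 1 : Fin k → F) := by
        funext j
        simpa using hΦ j
      rw [this]
      exact Pi.linearIndependent_single_one (Fin k) F
    exact LinearIndependent.of_comp (Φ ∘ₗ S.subtype) hcomp
  calc k = Fintype.card (Fin k) := by simp
    _ ≤ Module.finrank F S := hli.fintype_card_le_finrank
    _ ≤ (n - k) ^ 2 := hS

lemma isRecoverySet_submatrix {F κ κ' ι ι' : Type*} [Field F] [Fintype κ] [Fintype κ']
    (G : Matrix κ ι F) (e : κ' ≃ κ) (f : ι' ≃ ι) (j : κ') (I : Set ι)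
    (h : IsRecoverySet G (e j) I) : IsRecoverySet (G.submatrix e f) j (f ⁻¹' I) := by
  intro a b hab
  have := h (a ∘ e.symm) (b ∘ e.symm) (by
    intro i hi
    have h1 := hab (f.symm i) (by simpa using hi)
    have key : ∀ c : κ' → F, (c ᵥ* G.submatrix e f) (f.symm i) = ((c ∘ e.symm) ᵥ* G) i := by
      intro c
      simp only [Matrix.vecMul, dotProduct, Matrix.submatrix_apply, Equiv.apply_symm_apply,
        Function.comp_apply]
      refine Fintype.sum_equiv e _ _ fun l => by simp
    rwa [key, key] at h1)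
  simpa using this

lemma isPIRCode_submatrix {F κ κ' ι ι' : Type*} [Field F] [Fintype κ] [Fintype κ']
    (t : κ → ℕ) (G : Matrix κ ι F) (e : κ' ≃ κ) (f : ι' ≃ ι)
    (h : IsPIRCode t G) : IsPIRCode (fun j => t (e j)) (G.submatrix e f) := by
  refine ⟨?_, ?_⟩
  · intro a b hab
    have key : ∀ (c : κ' → F) (i : ι), (c ᵥ* G.submatrix e f) (f.symm i) =
        ((c ∘ e.symm) ᵥ* G) i := by
      intro c i
      simp only [Matrix.vecMul, dotProduct, Matrix.submatrix_apply, Equiv.apply_symm_apply,
        Function.comp_apply]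
      refine Fintype.sum_equiv e _ _ fun l => by simp
    have h2 : (a ∘ e.symm) = (b ∘ e.symm) := by
      apply h.1
      funext i
      have := congrFun hab (f.symm i)
      simp only at this
      rwa [key, key] at this
    funext l
    have := congrFun h2 (e l)
    simpa using this
  · intro j
    obtain ⟨R, hR, hrec⟩ := h.2 (e j)
    refine ⟨fun x => f ⁻¹' R x, ?_, ?_⟩
    · intro x y hxy
      exact Disjoint.preimage f (hR x y hxy)
    · intro x
      exact isRecoverySet_submatrix G e f j _ (hrec x)

lemma recast {F κ ι : Type*} [Field F] [Fintype κ] {m m' : ℕ} (hm : m = m') (G : Matrix κ ι F)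
    (j : κ) (h : ∃ R : Fin m → Set ι,
      (∀ x y, x ≠ y → Disjoint (R x) (R y)) ∧ ∀ x, IsRecoverySet G j (R x)) :
    ∃ R : Fin m' → Set ι,
      (∀ x y, x ≠ y → Disjoint (R x) (R y)) ∧ ∀ x, IsRecoverySet G j (R x) := by
  subst hm
  exact h

section construction

variable (F : Type) [Field F] (X : Type) [Fintype X] [LinearOrder X] (p : ℕ) [Fact p.Prime]
  (ev : X → ZMod p)

/-- The evaluation of the quadratic polynomial with coefficient triple `f` at `x`. -/
def val (f : ZMod p × ZMod p × ZMod p) (x : X) : ZMod p :=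
  f.1 + f.2.1 * ev x + f.2.2 * (ev x * ev x)

/-- The base positions: data positions and parity positions. -/
abbrev V := (ZMod p × ZMod p × ZMod p) ⊕ (X × ZMod p)

/-- The base code. -/
def base : Matrix (ZMod p × ZMod p × ZMod p) (V X p) F := fun f v =>
  match v with
  | Sum.inl g => if f = g then 1 else 0
  | Sum.inr (x, y) => if val X p ev f x = y then 1 else 0

/-- The generator matrix: every base position is doubled, with first symbol not added or added, and
there is one further copy of the first symbol for each element of `Bool ⊕ X`. -/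
def gen : Matrix (Option (ZMod p × ZMod p × ZMod p)) ((Bool × V X p) ⊕ (Bool ⊕ X)) F := fun l i =>
  match l, i with
  | none, Sum.inl (β, _) => if β then 1 else 0
  | none, Sum.inr _ => 1
  | some f, Sum.inl (_, v) => base F X p ev f v
  | some _, Sum.inr _ => 0

variable {F X p ev}

lemma val_eq_three (hev : Function.Injective ev) {f g : ZMod p × ZMod p × ZMod p}
    {x y z : X} (hxy : x ≠ y) (hxz : x ≠ z) (hyz : y ≠ z)
    (h1 : val X p ev g x = val X p ev f x) (h2 : val X p ev g y = val X p ev f y)
    (h3 : val X p ev g z = val X p ev f z) : g = f := by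
  obtain ⟨f0, f1, f2⟩ := f
  obtain ⟨g0, g1, g2⟩ := g
  simp only [val] at h1 h2 h3
  have hxy' : ev x - ev y ≠ 0 := sub_ne_zero.mpr fun h => hxy (hev h)
  have hxz' : ev x - ev z ≠ 0 := sub_ne_zero.mpr fun h => hxz (hev h)
  have hyz' : ev y - ev z ≠ 0 := sub_ne_zero.mpr fun h => hyz (hev h)
  have e1 : (ev x - ev y) * ((g1 - f1) + (g2 - f2) * (ev x + ev y)) = 0 := by
    linear_combination h1 - h2
  have e2 : (ev x - ev z) * ((g1 - f1) + (g2 - f2) * (ev x + ev z)) = 0 := by
    linear_combination h1 - h3
  have e1' := (mul_eq_zero.mp e1).resolve_left hxy'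
  have e2' := (mul_eq_zero.mp e2).resolve_left hxz'
  have e3 : (ev y - ev z) * (g2 - f2) = 0 := by linear_combination e1' - e2'
  have e3' := (mul_eq_zero.mp e3).resolve_left hyz'
  have hg2 : g2 = f2 := sub_eq_zero.mp e3'
  have hg1 : g1 = f1 := by
    rw [e3', zero_mul, add_zero] at e1'
    exact sub_eq_zero.mp e1'
  have hg0 : g0 = f0 := by
    subst hg2 hg1
    linear_combination h1
  rw [hg0, hg1, hg2]

lemma vecMul_gen_inl (a : Option (ZMod p × ZMod p × ZMod p) → F) (β : Bool) (v : V X p) :
    (a ᵥ* gen F X p ev) (Sum.inl (β, v)) =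
      a none * (if β then 1 else 0) + ∑ f, a (some f) * base F X p ev f v := by
  simp [Matrix.vecMul, dotProduct, gen, Fintype.sum_option]

lemma vecMul_gen_inr (a : Option (ZMod p × ZMod p × ZMod p) → F) (e : Bool ⊕ X) :
    (a ᵥ* gen F X p ev) (Sum.inr e) = a none := by
  simp [Matrix.vecMul, dotProduct, gen, Fintype.sum_option]

lemma sum_base_inl (a : Option (ZMod p × ZMod p × ZMod p) → F) (g : ZMod p × ZMod p × ZMod p) :
    ∑ f, a (some f) * base F X p ev f (Sum.inl g) = a (some g) := by
  simp [base]

/-- The recovery sets of the data symbol `some f`. -/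
def recSome (ev : X → ZMod p) (f : ZMod p × ZMod p × ZMod p) :
    Bool ⊕ X → Set ((Bool × V X p) ⊕ (Bool ⊕ X)) := fun c =>
  match c with
  | Sum.inl β => {i | i = Sum.inr (Sum.inl β) ∨ i = Sum.inl (β, Sum.inl f)}
  | Sum.inr x => {i | i = Sum.inr (Sum.inr x) ∨
      i = Sum.inl (false, Sum.inr (x, val X p ev f x)) ∨
      ∃ β g, i = Sum.inl (β, Sum.inl g) ∧ g ≠ f ∧ val X p ev g x = val X p ev f x ∧
        (β = true ↔ ∃ x' < x, val X p ev g x' = val X p ev f x')}

lemma recSome_disjoint (hev : Function.Injective ev) (f : ZMod p × ZMod p × ZMod p)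
    (c d : Bool ⊕ X) (hcd : c ≠ d) : Disjoint (recSome ev f c) (recSome ev f d) := by
  rw [Set.disjoint_left]
  rintro i hi hi'
  rcases c with β | x <;> rcases d with γ | y
  · have hne : β ≠ γ := fun h => hcd (by rw [h])
    simp only [recSome, Set.mem_ofPred_eq] at hi hi'
    rcases hi with rfl | rfl <;> rcases hi' with h | h <;> simp_all
  · simp only [recSome, Set.mem_ofPred_eq] at hi hi'
    rcases hi with rfl | rfl <;> rcases hi' with h | h | ⟨β', g, h, hg, _⟩ <;> simp_all
  · simp only [recSome, Set.mem_ofPred_eq] at hi hi'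
    rcases hi' with rfl | rfl <;> rcases hi with h | h | ⟨β', g, h, hg, _⟩ <;> simp_all
  · have hne : x ≠ y := fun h => hcd (by rw [h])
    have key : ∀ x y : X, x < y → ∀ β g, g ≠ f → val X p ev g x = val X p ev f x →
        (β = true ↔ ∃ x' < x, val X p ev g x' = val X p ev f x') →
        val X p ev g y = val X p ev f y →
        (β = true ↔ ∃ x' < y, val X p ev g x' = val X p ev f x') → False := by
      intro x y hxy β g hg h1 h2 h3 h4
      have hβ : β = true := h4.mpr ⟨x, hxy, h1⟩
      obtain ⟨z, hz, h5⟩ := h2.mp hβ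
      exact hg (val_eq_three hev hz.ne (hz.trans hxy).ne hxy.ne h5 h1 h3)
    simp only [recSome, Set.mem_ofPred_eq] at hi hi'
    rcases hi with rfl | rfl | ⟨β, g, rfl, hg, h1, h2⟩
    · rcases hi' with h | h | ⟨β', g', h, _⟩ <;> simp_all
    · rcases hi' with h | h | ⟨β', g', h, _⟩ <;> simp_all
    · rcases hi' with h | h | ⟨β', g', h, hg', h3, h4⟩
      · simp at h
      · simp at h
      · simp only [Sum.inl.injEq, Prod.mk.injEq] at h
        obtain ⟨rfl, rfl⟩ := h
        rcases lt_or_gt_of_ne hne with hlt | hlt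
        · exact key x y hlt β g hg h1 h2 h3 h4
        · exact key y x hlt β g hg h3 h4 h1 h2

lemma recSome_isRecoverySet (f : ZMod p × ZMod p × ZMod p) (c : Bool ⊕ X) :
    IsRecoverySet (gen F X p ev) (some f) (recSome ev f c) := by
  intro a b hab
  rcases c with β | x
  · have h0 := hab (Sum.inr (Sum.inl β)) (Or.inl rfl)
    have h1 := hab (Sum.inl (β, Sum.inl f)) (Or.inr rfl)
    rw [vecMul_gen_inr, vecMul_gen_inr] at h0
    rw [vecMul_gen_inl, vecMul_gen_inl, sum_base_inl, sum_base_inl, h0] at h1
    exact add_left_cancel h1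
  · have h0 := hab (Sum.inr (Sum.inr x)) (Or.inl rfl)
    rw [vecMul_gen_inr, vecMul_gen_inr] at h0
    have h1 := hab (Sum.inl (false, Sum.inr (x, val X p ev f x))) (Or.inr (Or.inl rfl))
    rw [vecMul_gen_inl, vecMul_gen_inl, h0] at h1
    have h1' := add_left_cancel h1
    have h2 : ∀ g, g ≠ f → val X p ev g x = val X p ev f x → a (some g) = b (some g) := by
      intro g hg hgx
      classical
      have h3 := hab (Sum.inl (decide (∃ x' < x, val X p ev g x' = val X p ev f x'), Sum.inl g))
        (Or.inr (Or.inr ⟨_, g, rfl, hg, hgx, by simp⟩))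
      rw [vecMul_gen_inl, vecMul_gen_inl, sum_base_inl, sum_base_inl, h0] at h3
      exact add_left_cancel h3
    have h4 : ∑ g, (a (some g) - b (some g)) * base F X p ev g (Sum.inr (x, val X p ev f x)) = 0 := by
      simp only [sub_mul, Finset.sum_sub_distrib]
      rw [h1', sub_self]
    rw [Finset.sum_eq_single f] at h4
    · simpa [base, sub_eq_zero] using h4
    · intro g _ hg
      by_cases hgx : val X p ev g x = val X p ev f x
      · rw [h2 g hg hgx, sub_self, zero_mul]
      · simp [base, hgx]
    · simp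

/-- The recovery sets of the first data symbol. -/
def recNone : V X p ⊕ (Bool ⊕ X) → Set ((Bool × V X p) ⊕ (Bool ⊕ X)) := fun c =>
  match c with
  | Sum.inl v => {i | i = Sum.inl (false, v) ∨ i = Sum.inl (true, v)}
  | Sum.inr e => {i | i = Sum.inr e}

lemma recNone_disjoint (c d : V X p ⊕ (Bool ⊕ X)) (hcd : c ≠ d) :
    Disjoint (recNone c) (recNone d) := by
  rw [Set.disjoint_left]
  rintro i hi hi'
  rcases c with v | e <;> rcases d with w | e' <;>
    simp only [recNone, Set.mem_ofPred_eq] at hi hi'
  · have hne : v ≠ w := fun h => hcd (by rw [h])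
    rcases hi with rfl | rfl <;> rcases hi' with h | h <;> simp_all
  · rcases hi with rfl | rfl <;> simp_all
  · rcases hi' with rfl | rfl <;> simp_all
  · subst hi
    exact hcd (by rw [Sum.inr.inj hi'])

lemma recNone_isRecoverySet (c : V X p ⊕ (Bool ⊕ X)) :
    IsRecoverySet (gen F X p ev) none (recNone c) := by
  intro a b hab
  rcases c with v | e
  · have h0 := hab (Sum.inl (false, v)) (Or.inl rfl)
    have h1 := hab (Sum.inl (true, v)) (Or.inr rfl)
    rw [vecMul_gen_inl, vecMul_gen_inl] at h0 h1
    simp only [Bool.false_eq_true, if_false, mul_zero, zero_add] at h0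
    simp only [if_true, mul_one, h0] at h1
    exact add_right_cancel h1
  · have h0 := hab (Sum.inr e) rfl
    rwa [vecMul_gen_inr, vecMul_gen_inr] at h0

/-- The demands of the constructed code. -/
def demand (X : Type) (p : ℕ) [Fintype X] [Fact p.Prime] :
    Option (ZMod p × ZMod p × ZMod p) → ℕ := fun l =>
  match l with
  | none => Fintype.card (V X p ⊕ (Bool ⊕ X))
  | some _ => Fintype.card (Bool ⊕ X)

lemma isPIRCode_gen (hev : Function.Injective ev) :
    IsPIRCode (demand X p) (gen F X p ev) := by
  refine ⟨?_, ?_⟩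
  · intro a b hab
    funext l
    rcases l with _ | f
    · exact recNone_isRecoverySet (ev := ev) (Sum.inr (Sum.inl true)) a b fun i _ => congrFun hab i
    · exact recSome_isRecoverySet (ev := ev) f (Sum.inl true) a b fun i _ => congrFun hab i
  · rintro (_ | f)
    · refine ⟨fun x => recNone ((Fintype.equivFin _).symm x), ?_, ?_⟩
      · intro x y hxy
        exact recNone_disjoint _ _ fun h => hxy ((Fintype.equivFin _).symm.injective h)
      · intro x
        exact recNone_isRecoverySet _
    · refine ⟨fun x => recSome ev f ((Fintype.equivFin _).symm x), ?_, ?_⟩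
      · intro x y hxy
        exact recSome_disjoint hev f _ _ fun h => hxy ((Fintype.equivFin _).symm.injective h)
      · intro x
        exact recSome_isRecoverySet f _

end construction

/-- **The residual-type step fails for every finite field of characteristic two.** Let `F` be a finite
field of characteristic two with `q` elements. Then there are a number `k + 1 ≥ 2` of data symbols,
demands `t 0 ≥ t 1 ≥ ⋯ ≥ t k ≥ 1` and a length `n` such that a linear `(t 0, …, t k)`-PIR code over
`F` of length `n` exists, but no linear `(⌈t 1 / q⌉, …, ⌈t k / q⌉)`-PIR code over `F` of length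
`n - t 0` exists. -/
theorem result (F : Type) [Field F] [Fintype F] [CharP F 2] :
    ∃ (k n : ℕ) (t : Fin (k + 1) → ℕ), 1 ≤ k ∧ Antitone t ∧ (∀ j, 1 ≤ t j) ∧ t 0 ≤ n ∧
      (∃ G : Matrix (Fin (k + 1)) (Fin n) F, IsPIRCode t G) ∧
      ¬ ∃ G' : Matrix (Fin k) (Fin (n - t 0)) F,
        IsPIRCode (fun j : Fin k => ⌈(t j.succ : ℚ) / (Fintype.card F : ℚ)⌉₊) G' := by
  classical
  set q := Fintype.card F with hq
  have hq2 : 2 ≤ q := Fintype.one_lt_card
  obtain ⟨p, hp, hprime⟩ := Nat.exists_infinite_primes ((2 * q - 1) ^ 2 + 1)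
  have : Fact p.Prime := ⟨hprime⟩
  have hpq : 2 * q - 1 < p := by
    have : 2 * q - 1 ≤ (2 * q - 1) ^ 2 := Nat.le_self_pow (by norm_num) _
    omega
  let X := Fin (2 * q - 1)
  let ev : X → ZMod p := fun x => ((x : ℕ) : ZMod p)
  have hev : Function.Injective ev := by
    intro x y hxy
    have h1 : ((x : ℕ) : ZMod p) = ((y : ℕ) : ZMod p) := hxy
    rw [ZMod.natCast_eq_natCast_iff'] at h1
    rw [Nat.mod_eq_of_lt (lt_trans x.2 hpq), Nat.mod_eq_of_lt (lt_trans y.2 hpq)] at h1
    exact Fin.ext h1
  let J := ZMod p × ZMod p × ZMod p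
  let ι := (Bool × V X p) ⊕ (Bool ⊕ X)
  let k := Fintype.card J
  let n := Fintype.card ι
  let eJ : Fin k ≃ J := (Fintype.equivFin J).symm
  let e : Fin (k + 1) ≃ Option J := (finSuccEquiv k).trans (Equiv.optionCongr eJ)
  let f : Fin n ≃ ι := (Fintype.equivFin ι).symm
  let t : Fin (k + 1) → ℕ := fun j => demand X p (e j)
  have hX : Fintype.card (Bool ⊕ X) = 2 * q + 1 := by
    simp only [Fintype.card_sum, Fintype.card_bool, X, Fintype.card_fin]
    omega
  have hk : k = p ^ 3 := by
    simp only [k, J, Fintype.card_prod, ZMod.card]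
    ring
  have hV : Fintype.card (V X p) = p ^ 3 + (2 * q - 1) * p := by
    simp only [V, Fintype.card_sum, Fintype.card_prod, ZMod.card, X, Fintype.card_fin]
    ring
  have ht0 : t 0 = Fintype.card (V X p) + Fintype.card (Bool ⊕ X) := by
    have : e 0 = none := by simp [e]
    simp only [t, this, demand]
    rw [Fintype.card_sum]
  have hts : ∀ j : Fin k, t j.succ = 2 * q + 1 := by
    intro j
    have : e j.succ = some (eJ j) := by simp [e]
    simp only [t, this, demand]
    exact hX
  have hn : n = 2 * Fintype.card (V X p) + Fintype.card (Bool ⊕ X) := by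
    simp only [n, ι]
    rw [Fintype.card_sum, Fintype.card_prod, Fintype.card_bool]
  have hnt : n - t 0 = p ^ 3 + (2 * q - 1) * p := by
    rw [hn, ht0, hV]
    omega
  refine ⟨k, n, t, ?_, ?_, ?_, ?_, ?_, ?_⟩
  · rw [hk]
    exact Nat.one_le_pow _ _ hprime.pos
  · intro i j hij
    have ht0' : 2 * q + 1 ≤ t 0 := by rw [ht0, hX]; omega
    rcases Fin.eq_zero_or_eq_succ j with rfl | ⟨j', rfl⟩
    · have : i = 0 := by simpa using hij
      rw [this]
    · rcases Fin.eq_zero_or_eq_succ i with rfl | ⟨i', rfl⟩
      · rw [hts]; exact ht0'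
      · rw [hts, hts]
  · intro j
    rcases Fin.eq_zero_or_eq_succ j with rfl | ⟨j', rfl⟩
    · rw [ht0, hX]; omega
    · rw [hts]; omega
  · rw [hn, ht0]; omega
  · exact ⟨_, isPIRCode_submatrix (demand X p) (gen F X p ev) e f (isPIRCode_gen hev)⟩
  · rintro ⟨G', hG'⟩
    have hceil : ∀ j : Fin k, ⌈(t j.succ : ℚ) / (q : ℚ)⌉₊ = 3 := by
      intro j
      rw [hts]
      have hq0 : (0 : ℚ) < q := by exact_mod_cast (by omega : 0 < q)
      rw [Nat.ceil_eq_iff (by norm_num)]
      constructor
      · rw [lt_div_iff₀ hq0]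
        push_cast
        norm_num
      · rw [div_le_iff₀ hq0]
        have : (1 : ℚ) ≤ q := by exact_mod_cast (by omega : 1 ≤ q)
        push_cast
        linarith
    have h3 : ∀ j, ∃ R : Fin 3 → Set (Fin (n - t 0)),
        (∀ x y, x ≠ y → Disjoint (R x) (R y)) ∧ ∀ x, IsRecoverySet G' j (R x) := by
      intro j
      exact recast (hceil j) G' j (hG'.2 j)
    have h4 := le_sq_of_three G' h3
    rw [hnt, hk] at h4
    have h5 : p ^ 3 + (2 * q - 1) * p - p ^ 3 = (2 * q - 1) * p := by omega
    rw [h5, mul_pow] at h4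
    have h6 : p * p ^ 2 ≤ (2 * q - 1) ^ 2 * p ^ 2 := by
      calc p * p ^ 2 = p ^ 3 := by ring
        _ ≤ _ := h4
    have h7 := Nat.le_of_mul_le_mul_right h6 (pow_pos hprime.pos 2)
    omega

end Pool.H26.MV.ResidualStepFails
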